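import Pool.Agent.Y29.GS.Main

/-!
# Every Golod-Shafarevich group in characteristic zero has a residually finite quotient of the
same kind with constant first Betti number

Let `Γ` be any group which is Golod-Shafarevich in characteristic zero.  Arbitrarily deep in the
lower central series of `Γ` there is a normal subgroup `M` such that `G = Γ/M` is again
Golod-Shafarevich in characteristic zero, residually nilpotent and residually finite, and for every
subgroup `K` of finite index in `G` every homomorphism from `K` to the rational numbers extends to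
`G`, so that `b₁(K) = b₁(G) = b₁(Γ)`.
-/

namespace Pool.Agent.Results.MP_09d285_al.HereditaryQuotients

open Pool.Agent.Results.MP_09d285_al.BoundedVirtualBetti (IsGolodShafarevichZero firstBetti)

/-- (1) Every group `Γ` which is Golod-Shafarevich in characteristic zero has, for every `N`, a
normal subgroup `M` contained in the `N`-th term `γ_{N+1}(Γ)` of the lower central series such
that `Γ/M` is Golod-Shafarevich in characteristic zero, residually finite and residually nilpotent,
every homomorphism to `ℚ` from a subgroup `K` of finite index in `Γ/M` is the restriction of a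
homomorphism `Γ/M → ℚ`, and `b₁(K) = b₁(Γ)` for all such `K`.
(2) For every `d ≥ 2` there is a residually finite and residually nilpotent group, Golod-Shafarevich
in characteristic zero, all of whose subgroups of finite index have first Betti number
exactly `d`. -/
theorem result :
    (∀ (Γ : Type) [Group Γ], IsGolodShafarevichZero Γ → ∀ N : ℕ,
      ∃ (M : Subgroup Γ) (_ : M.Normal), M ≤ (⊤ : Subgroup Γ).lowerCentralSeries N ∧
        IsGolodShafarevichZero (Γ ⧸ M) ∧ Group.ResiduallyFinite (Γ ⧸ M) ∧
        (⨅ n, (⊤ : Subgroup (Γ ⧸ M)).lowerCentralSeries n) = ⊥ ∧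
        ∀ K : Subgroup (Γ ⧸ M), K.FiniteIndex →
          (∀ φ : Additive K →+ ℚ, ∃ ψ : Additive (Γ ⧸ M) →+ ℚ, ∀ k : K,
            ψ (Additive.ofMul (k : Γ ⧸ M)) = φ (Additive.ofMul k)) ∧
          firstBetti K = firstBetti Γ) ∧
    (∀ d : ℕ, 2 ≤ d → ∃ (G : Type) (_ : Group G), IsGolodShafarevichZero G ∧
      Group.ResiduallyFinite G ∧ (⨅ n, (⊤ : Subgroup G).lowerCentralSeries n) = ⊥ ∧
      ∀ K : Subgroup G, K.FiniteIndex → firstBetti K = (d : Cardinal)) := by
  refine ⟨fun Γ _ hΓ N => Pool.Agent.Y29.GS.main Γ hΓ N, fun d hd => ?_⟩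
  obtain ⟨M, hM, -, h1, h2, h3, h4⟩ := Pool.Agent.Y29.GS.main (FreeGroup (Fin d))
    (Pool.Agent.Y29.GS.gs_free d hd) 0
  refine ⟨FreeGroup (Fin d) ⧸ M, inferInstance, h1, h2, h3, fun K hK => ?_⟩
  rw [(h4 K hK).2, Pool.Agent.Y29.GS.betti_free]

end Pool.Agent.Results.MP_09d285_al.HereditaryQuotients
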